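import Pool.Agent.Y249.AC.Stm
import Pool.Agent.Y244.HM.Alpha
import Pool.Agent.Y254.Main

/-!
# Two sources of the moment bound for tubes
-/

set_option autoImplicit false

open MeasureTheory Set Filter Topology ENNReal NNReal Metric

namespace Pool.Agent.Y249.AC

/-- The arithmetic bound, `d ≥ 9`, all slopes above the root `1.67513...` of `x ^ 3 - 4 x + 2`. -/
theorem tubeB_arith {d : ℕ} (hd : 9 ≤ d) {c : ℝ} (hc1 : 1 < c) (hc : 0 < c ^ 3 - 4 * c + 2) :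
    TubeB d c := by
  obtain ⟨C, hC, h⟩ := Pool.Agent.Y244.HM.tubes_alpha hd hc1 hc le_rfl
  exact ⟨C, hC, fun δ hδ hδ1 => h δ hδ hδ1.le⟩

/-- The Wolff range, `d ≥ 2`, all slopes above `2 d / (d + 1)`. -/
theorem tubeB_wolff {d : ℕ} (hd : 2 ≤ d) {c : ℝ} (hc : 2 * (d : ℝ) / (d + 1) < c) : TubeB d c := by
  have hd0 : (0 : ℝ) < d := by exact_mod_cast (by omega : 0 < d)
  have hq : 1 + 2 / (((d + 1 : ℕ)) : ℝ) < 1 + c / (d : ℝ) := by
    have h1 : 2 / (((d + 1 : ℕ)) : ℝ) < c / (d : ℝ) := by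
      push_cast
      rw [lt_div_iff₀ hd0]
      calc 2 / ((d : ℝ) + 1) * d = 2 * (d : ℝ) / (d + 1) := by ring
        _ < c := hc
    linarith
  obtain ⟨A, hA, h⟩ := Pool.Agent.Y254.wolff (n := d + 1) (by omega) hq
  refine ⟨A, hA, fun δ hδ hδ1 ι _ a e he hsep => ?_⟩
  refine (h δ hδ hδ1 a e he hsep).trans (le_of_eq ?_)
  congr 1
  rw [Nat.add_sub_cancel, ← Real.rpow_natCast δ d, mul_assoc]
  congr 3
  push_cast
  ring

end Pool.Agent.Y249.AC
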