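import Pool.Agent.Y249.AC.Stm
import Pool.Agent.Y254.HK.FinalG

/-!
# The hybrid source of the moment bound for tubes
-/

set_option autoImplicit false

open MeasureTheory Set Filter Topology ENNReal NNReal Metric

namespace Pool.Agent.Y249.AC

/-- The hybrid bound, `d ≥ 9`, with the mixing weight `x`. -/
theorem tubeB_mix {d : ℕ} (hd : 9 ≤ d) {x c : ℝ} (h : Pool.Agent.Y254HK.Cd d x c) :
    TubeB d c := by
  obtain ⟨C, hC, h⟩ := Pool.Agent.Y254HK.tubes_mix hd h le_rfl
  refine ⟨C, hC, fun δ hδ hδ1 ι _ a e he hsep => ?_⟩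
  refine (h δ hδ hδ1 ι a e he hsep).trans (le_of_eq ?_)
  congr 1
  rw [← Real.rpow_natCast δ d, mul_assoc]

end Pool.Agent.Y249.AC
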