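import Pool.Agent.Y249.AC.Stm
import Pool.Agent.W193.AC.INT

/-!
# The integral bound for boxes, from the bound for tubes, general slope
-/

set_option autoImplicit false

open MeasureTheory Set Filter Topology ENNReal NNReal Metric

namespace Pool.Agent.Y249.AC

open Pool.Agent.H810R3.Tub Pool.Agent.W772 Pool.Agent.W193.AC

theorem INT {d : ℕ} {c : ℝ} (hd : 1 ≤ d) (hc : 0 < c) (h : TubeB d c) : IntB d c := by
  intro σ hσ hσ1
  have hd0 : (0 : ℝ) < d := by exact_mod_cast (by omega : 0 < d)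
  set q : ℝ := 1 + c / (d : ℝ) with hq
  have hq1 : 1 ≤ q := by
    have : 0 < c / (d : ℝ) := by positivity
    rw [hq]; linarith
  have hqd : q - 1 / (d : ℝ) = 1 + (c - 1) / (d : ℝ) := by
    rw [hq]; field_simp; ring
  obtain ⟨C, hC, hT⟩ := h
  set m : ℕ := ⌈4 * (d : ℝ) / σ⌉₊ with hm
  have hm1 : 1 ≤ m := Nat.one_le_ceil_iff.2 (by positivity)
  have hm0 : (0 : ℝ) < m := by exact_mod_cast hm1
  have hmle : 4 * (d : ℝ) / σ ≤ m := Nat.le_ceil _
  set K : ℝ := ((Fintype.card (Fin d → Fin (m + 1)) : ℕ) : ℝ) with hK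
  have hK0 : 0 < K := by
    rw [hK]
    exact_mod_cast Fintype.card_pos
  refine ⟨K ^ (q - 1) * (K * (C * (σ / 4) ^ d)), by positivity, ?_⟩
  intro N hN ι _ ω f a hω hsep hf
  have hN0 : 0 < N := by linarith
  set δ : ℝ := σ / 4 / N with hδ
  have hδ0 : 0 < δ := by positivity
  have hδ1 : δ < 1 := by
    rw [hδ, div_lt_one hN0]
    linarith
  have hmd : (d : ℝ) * (N / m) ≤ δ * N ^ 2 := by
    have e1 : δ * N ^ 2 = σ / 4 * N := by
      rw [hδ]; field_simp
    have e2 : (d : ℝ) * (N / m) = (d : ℝ) / m * N := by ring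
    rw [e1, e2]
    apply mul_le_mul_of_nonneg_right _ hN0.le
    rw [div_le_iff₀ hm0]
    rw [div_le_iff₀ hσ] at hmle
    linarith
  set Fk : (Fin d → Fin (m + 1)) → Space d → ℝ≥0∞ := fun k y =>
    ∑ i, (cyl (N ^ 2) δ (a i + off N m (f i) k) (nor (ω i))).indicator (fun _ => (1 : ℝ≥0∞)) y
    with hFk
  have h1 : ∀ y, Fb N ω f a y ≤ ∑ k, Fk k y := by
    intro y
    simp only [hFk]
    rw [Finset.sum_comm]
    unfold Fb
    refine Finset.sum_le_sum fun i _ => ?_
    by_cases hy : y ∈ box N (nor (ω i)) (f i) (a i)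
    · obtain ⟨k, hk⟩ := cover hN hm1 hmd (hf i) hy
      rw [indicator_of_mem hy]
      calc (1 : ℝ≥0∞) = (cyl (N ^ 2) δ (a i + off N m (f i) k) (nor (ω i))).indicator
            (fun _ => (1 : ℝ≥0∞)) y := by rw [indicator_of_mem hk]
        _ ≤ _ := Finset.single_le_sum (f := fun k => (cyl (N ^ 2) δ (a i + off N m (f i) k)
            (nor (ω i))).indicator (fun _ => (1 : ℝ≥0∞)) y) (fun _ _ => zero_le)
            (Finset.mem_univ k)
    · rw [indicator_of_notMem hy]
      exact zero_le
  set M : ℝ := (Fintype.card ι : ℝ) with hM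
  set B : ℝ≥0∞ := ENNReal.ofReal (C * δ ^ (d : ℝ) * M ^ (q - 1 / (d : ℝ))) with hB
  have h2 : ∀ k, ∫⁻ y, Fk k y ^ q ≤ ENNReal.ofReal ((N ^ 2) ^ (d + 1)) * B := by
    intro k
    refine cyl_int (by positivity) _ _ ?_
    refine hT δ hδ0 hδ1 ι _ _ ?_ ?_
    · intro i
      rw [LinearIsometryEquiv.norm_map]
      exact norm_e (hf i)
    · intro i j hij
      rw [← map_sub, LinearIsometryEquiv.norm_map]
      have h3 := nor_sep (ω i) (ω j) (hω i) (hω j)
      have h4 := hsep i j hij
      have h5 : δ = σ / N / 4 := by rw [hδ]; ring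
      rw [h5]
      linarith
  have hFkm : ∀ k, Measurable (fun y => Fk k y ^ q) := by
    intro k
    refine Measurable.pow_const ?_ q
    apply Finset.measurable_fun_sum
    intro i _
    refine measurable_const.indicator ?_
    have g1 : Continuous (fun y : Space d =>
      |inner ℝ (y - (a i + off N m (f i) k)) (nor (ω i))|) := by fun_prop
    have g2 : Continuous (fun y : Space d => ‖(y - (a i + off N m (f i) k)) -
      (inner ℝ (y - (a i + off N m (f i) k)) (nor (ω i)) : ℝ) • nor (ω i)‖) := by fun_prop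
    exact ((isClosed_le g1 continuous_const).inter (isClosed_le g2 continuous_const)).measurableSet
  calc ∫⁻ y, Fb N ω f a y ^ q
      ≤ ∫⁻ y, ENNReal.ofReal (K ^ (q - 1)) * ∑ k, Fk k y ^ q := by
        refine lintegral_mono fun y => ?_
        calc Fb N ω f a y ^ q ≤ (∑ k, Fk k y) ^ q :=
              ENNReal.rpow_le_rpow (h1 y) (by linarith)
          _ ≤ _ := by
              have h6 := ENNReal.rpow_sum_le_const_mul_sum_rpow (s := Finset.univ)
                (f := fun k => Fk k y) hq1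
              refine h6.trans (le_of_eq ?_)
              congr 1
              rw [Finset.card_univ, ← ENNReal.ofReal_natCast,
                ENNReal.ofReal_rpow_of_pos hK0]
    _ = ENNReal.ofReal (K ^ (q - 1)) * ∑ k, ∫⁻ y, Fk k y ^ q := by
        rw [lintegral_const_mul _ (Finset.measurable_fun_sum _ fun k _ => hFkm k),
          lintegral_finsetSum _ fun k _ => hFkm k]
    _ ≤ ENNReal.ofReal (K ^ (q - 1)) * ∑ _k : Fin d → Fin (m + 1),
          (ENNReal.ofReal ((N ^ 2) ^ (d + 1)) * B) := by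
        gcongr with k _
        exact h2 k
    _ = _ := by
        rw [Finset.sum_const, Finset.card_univ, nsmul_eq_mul, ← ENNReal.ofReal_natCast, ← hK, hB,
          ← ENNReal.ofReal_mul (by positivity), ← ENNReal.ofReal_mul (by positivity),
          ← ENNReal.ofReal_mul (by positivity)]
        congr 1
        rw [hqd, Real.rpow_natCast]
        have e1 : δ ^ d * (N ^ 2) ^ (d + 1) = (σ / 4) ^ d * N ^ (d + 2) := by
          rw [hδ, div_pow (σ / 4) N d]
          field_simp
          ring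
        calc K ^ (q - 1) * (K * ((N ^ 2) ^ (d + 1) * (C * δ ^ d * M ^ (1 + (c - 1) / (d : ℝ)))))
            = K ^ (q - 1) * (K * (C * M ^ (1 + (c - 1) / (d : ℝ)))) *
                (δ ^ d * (N ^ 2) ^ (d + 1)) := by ring
          _ = _ := by rw [e1]; ring

end Pool.Agent.Y249.AC
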