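import Pool.Agent.W772.Tri5
import Pool.Agent.W46.HM.Stm2

/-!
# MP_ac5134: the Kakeya inequality in tube form, arbitrary translates, general slope `c`
-/

set_option autoImplicit false

open MeasureTheory Set Filter Topology ENNReal NNReal Metric

namespace Pool.Agent.Y249.AC

open Pool.Agent.H810R3.Tub Pool.Agent.W772

/-- The moment bound at the exponent `1 + c / d` for `δ`-tubes with `δ`-separated directions. -/
def TubeB (d : ℕ) (c : ℝ) : Prop :=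
    ∃ C : ℝ, 0 < C ∧ ∀ δ : ℝ, 0 < δ → δ < 1 → ∀ (ι : Type) [Fintype ι]
    (a e : ι → EuclideanSpace ℝ (Fin (d + 1))), (∀ i, ‖e i‖ = 1) →
    (∀ i j, i ≠ j → δ ≤ ‖e i - e j‖) →
    ∫⁻ x, (∑ i, (Pool.Agent.W46.KK.tube δ (a i) (e i)).indicator (fun _ => (1 : ℝ≥0∞)) x) ^
        (1 + c / (d : ℝ)) ≤
      ENNReal.ofReal (C * δ ^ (d : ℝ) * (Fintype.card ι : ℝ) ^ (1 + c / (d : ℝ) - 1 / (d : ℝ)))

/-- The integral bound for boxes at the exponent `1 + c / d`. -/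
def IntB (d : ℕ) (c : ℝ) : Prop := ∀ σ : ℝ, 0 < σ → σ ≤ 1 → ∃ E : ℝ, 0 < E ∧
    ∀ (N : ℝ), 1 ≤ N → ∀ (ι : Type) [Fintype ι] (ω : ι → Vec d) (f : ι → Fin d → Space d)
      (a : ι → Space d), (∀ i, ‖ω i‖ ≤ 1) → (∀ i j, i ≠ j → σ / N ≤ ‖ω i - ω j‖) →
      (∀ i, Orthonormal ℝ (Fin.cons (nor (ω i)) (f i) : Fin (d + 1) → Space d)) →
      ∫⁻ y, Fb N ω f a y ^ (1 + c / (d : ℝ)) ≤
        ENNReal.ofReal (E * (Fintype.card ι : ℝ) ^ (1 + (c - 1) / (d : ℝ)) * N ^ (d + 2))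

/-- The exponent of `N` lost at the exponent `p`: `max 0 (min (d (1 - 1/c) u) (1 - u (d + c)/c))`,
`u = 1 - 1/p`. -/
noncomputable def gam (d : ℕ) (c : ℝ) (p : ℝ≥0∞) : ℝ :=
  max 0 (min ((d : ℝ) * (1 - 1 / c) * (1 - 1 / p.toReal))
    (1 - (1 - 1 / p.toReal) * ((d : ℝ) + c) / c))

end Pool.Agent.Y249.AC
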